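import Pool.Agent.H447.TR.Tag

/-!
# The tag system 0 -> 12, 1 -> 0, 2 -> 000 with shift 2: components, irrelevant letters and random advice

The question asks whether the set of the words on which the tag system halts is computable. We show:

1. It is computable if and only if there is a c.e. set `B` of non-halting words such that the number of the
   components (of words whose computations meet) which have an element with code at most `N`, contain no
   cycle and no element of `B` can be found, for all `N` in some infinite decidable set, by an algorithm with
   random seeds, which need not halt and has to be right for a fraction `1 / q` of the seeds only.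
2. If it is not computable, there are infinitely many components without cycles and elements of `B`, for
   every c.e. set `B` of non-halting words.
3. It is computable if and only if, for all `N` in some infinite decidable set, an algorithm with
   random seeds recognises (by halting) the non-halting words with less than `3 ^ ⌊n / 2⌋ / 2` errors among
   the `3 ^ n` words of length `n`, for all `n ≤ N`, for a fraction `1 / q` of the seeds.

For 3. only the letters number `0, 2, 4, ...` of a word are ever read, so the majority among the
`3 ^ ⌊n / 2⌋` words with the same relevant letters gives the right answer.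
-/

set_option autoImplicit false

namespace Pool.Agent.Results.MP_c95a35_lc.ComponentsAndRandomAdvice

/-- one step of the tag system, as in the frozen statement -/
def step (w : List (Fin 3)) : List (Fin 3) :=
  w.drop 2 ++ (w.take 1).flatMap (![[1, 2], [0], [0, 0, 0]] : Fin 3 → List (Fin 3))

/-- the computation on `w` halts: a word of length less than `2` is reached -/
def Halts (w : List (Fin 3)) : Prop := ∃ k : ℕ, (step^[k] w).length < 2

/-- The question (this is the frozen statement). -/
def Q1 : Prop := ComputablePred Halts

/-- one step of the computation, which stops at words of length less than `2` -/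
def next (w : List (Fin 3)) : List (Fin 3) := bif decide (w.length < 2) then w else step w

/-- the computations on `u` and `w` meet, that is, `u` and `w` are in the same component -/
def Meet (u w : List (Fin 3)) : Prop := ∃ i j, next^[i] u = next^[j] w

/-- the computation on `w` is eventually periodic (for instance it halts) -/
def Periodic (w : List (Fin 3)) : Prop := ∃ i j, j < i ∧ next^[i] w = next^[j] w

/-- `w` has the smallest code in its component, which contains no cycle and no element of `B` -/
def Leader (B : List (Fin 3) → Prop) (w : List (Fin 3)) : Prop :=
  ¬ Periodic w ∧ (∀ u, B u → ¬ Meet u w) ∧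
    ∀ u, Encodable.encode u < Encodable.encode w → ¬ Meet u w

/-- the number of the leaders with code at most `N` -/
noncomputable def leaders (B : List (Fin 3) → Prop) (N : ℕ) : ℕ :=
  {w | Encodable.encode w ≤ N ∧ Leader B w}.ncard

/-- a fraction of at least `1 / q` of the seeds `b < M` satisfies `p` -/
def Often (q M : ℕ) (p : ℕ → Prop) : Prop := 0 < M ∧ M ≤ q * {b | b < M ∧ p b}.ncard

/-- `r` is an infinite decidable set -/
def Stages (r : ℕ → Bool) : Prop := Computable r ∧ ∀ k, ∃ N ≥ k, r N = true

/-- the words of length `n` for which halting of `D` is not equivalent to non-halting of the tag system -/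
def Errors (D : List (Fin 3) →. ℕ) (n : ℕ) : Set (List (Fin 3)) :=
  {w | w.length = n ∧ ((D w).Dom ↔ Halts w)}

/-- the appended word -/
def P : Option (Fin 3) → List (Fin 3)
  | none => []
  | some a => (![[1, 2], [0], [0, 0, 0]] : Fin 3 → List (Fin 3)) a

lemma step_eq (w : List (Fin 3)) : step w = w.drop 2 ++ P w.head? := by
  cases w with
  | nil => rfl
  | cons x t => simp [step, P]

lemma step_comp : Computable step := by
  have h1 : Primrec fun w : List (Fin 3) => w.tail.tail ++ P w.head? :=
    Primrec.list_append.comp (Primrec.list_tail.comp Primrec.list_tail)
      ((Primrec.dom_finite P).comp Primrec.list_head?)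
  refine (h1.to_comp).of_eq fun w => ?_
  rw [step_eq]
  rcases w with _ | ⟨x, _ | ⟨y, t⟩⟩ <;> rfl

lemma len_comp : Computable fun w : List (Fin 3) => decide (w.length < 2) :=
  Pool.Agent.H447.TR.lt_dec_comp Primrec.list_length.to_comp (Computable.const 2)

/-- **Components, irrelevant letters and random advice.** -/
theorem result :
    (Q1 ↔ ∃ (B : List (Fin 3) → Prop) (q : ℕ) (M : ℕ → ℕ) (F : ℕ × ℕ →. ℕ) (r : ℕ → Bool),
      REPred B ∧ (∀ w, B w → ¬ Halts w) ∧ Computable M ∧ Partrec F ∧ Stages r ∧
        ∀ N, r N = true → Often q (M N) fun b => leaders B N ∈ F (N, b)) ∧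
    (¬ Q1 → ∀ B : List (Fin 3) → Prop, REPred B → (∀ w, B w → ¬ Halts w) →
      {w | Leader B w}.Infinite) ∧
    (Q1 ↔ ∃ (q : ℕ) (M : ℕ → ℕ) (D : (ℕ × ℕ) × List (Fin 3) →. ℕ) (r : ℕ → Bool),
      Computable M ∧ Partrec D ∧ Stages r ∧
        ∀ N, r N = true → Often q (M N) fun b =>
          ∀ n ≤ N, 2 * (Errors (fun w => D ((N, b), w)) n).ncard < 3 ^ (n / 2)) := by
  refine ⟨?_, ?_, ?_⟩
  · have h := Pool.Agent.H447.TR.gen_iff step_comp len_comp
    simp only [decide_eq_true_eq] at h
    exact h
  · intro hQ B hB hBA
    refine Pool.Agent.H447.TR.gen_infinite step_comp len_comp hB ?_ ?_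
    · simp only [decide_eq_true_eq]
      exact hBA
    · simp only [decide_eq_true_eq]
      exact hQ
  · have h := Pool.Agent.H447.TR.tag_avg (A := Fin 3) (v := 2) (a := 3) (by norm_num) step_comp
      step_eq (c := fun d => if d = 0 then 0 else if d = 1 then 1 else 2)
      (Primrec.ite (Primrec.eq.comp Primrec.id (Primrec.const 0)) (Primrec.const 0)
        (Primrec.ite (Primrec.eq.comp Primrec.id (Primrec.const 1)) (Primrec.const 1)
          (Primrec.const 2)))
      (fun x hx y hy h => by
        have hx' : x = 0 ∨ x = 1 ∨ x = 2 := by omega
        have hy' : y = 0 ∨ y = 1 ∨ y = 2 := by omega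
        rcases hx' with rfl | rfl | rfl <;> rcases hy' with rfl | rfl | rfl <;> simp at h ⊢)
      (e := fun i => i / 2) (ι := fun t => 2 * t + 1)
      (m := fun n => n / 2) (by fun_prop) (by fun_prop)
      (fun n t ht => by omega)
    unfold Pool.Agent.H447.TR.ErrorsT at h
    simp only [decide_eq_true_eq] at h
    exact h

end Pool.Agent.Results.MP_c95a35_lc.ComponentsAndRandomAdvice
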